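import Pool.Agent.H50.LP.Fin3
import Pool.Agent.H50.LP.Lip0

/-!
MP_b365ef_an. If `A ⊆ ℝ` contains approximate arithmetic progressions of every length then
`Lip_0(ℝ × A)` is isomorphic to `Lip_0(ℝ²)`.
-/

set_option autoImplicit false

namespace Pool.Agent.Results.MP_b365ef_an.LongProgressions

/-- The real vector space of the Lipschitz functions on `M` which vanish at `p`. -/
def Lip0 (M : Type) [MetricSpace M] (p : M) : Submodule ℝ (M → ℝ) where
  carrier := {f | f p = 0 ∧ ∃ K : NNReal, LipschitzWith K f}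
  add_mem' := by
    rintro f g ⟨h0, K, h⟩ ⟨h0', L, h'⟩
    exact ⟨by simp [h0, h0'], K + L, h.add h'⟩
  zero_mem' := ⟨rfl, 0, LipschitzWith.const 0⟩
  smul_mem' := (H50LP.Lip0 M p).smul_mem'

/-- `Lip0 M p` and `Lip0 N q` are isomorphic as Banach spaces: there is a linear bijection which
is bounded in both directions for the norm given by the best Lipschitz constant. -/
def LipIso (M N : Type) [MetricSpace M] [MetricSpace N] (p : M) (q : N) : Prop :=
  ∃ (T : Lip0 M p ≃ₗ[ℝ] Lip0 N q) (C : NNReal),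
    (∀ (f : Lip0 M p) (K : NNReal), LipschitzWith K f.1 → LipschitzWith (C * K) (T f).1) ∧
    ∀ (g : Lip0 N q) (K : NNReal), LipschitzWith K g.1 → LipschitzWith (C * K) (T.symm g).1

/-- The product `ℝ × A` as a subset of the Euclidean plane. -/
def strip (A : Set ℝ) : Set (EuclideanSpace ℝ (Fin 2)) := {z | z 1 ∈ A}

theorem second (A : Set ℝ) (p : H50LP.strip A) (h : H50LP.HasAP A) :
    H50LP.LipIso (H50LP.strip A) (EuclideanSpace ℝ (Fin 2)) p 0 := by
  have a0 : A := ⟨p.1 1, p.2⟩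
  exact (H50LP.lipIso_iff _ _ _ _).2 ((H50LP.iso_strip A p a0).trans
    ((H50LP.iso_LX_univ A a0 h).trans H50LP.iso_plane.symm))

/-- Let `A` be a set of reals such that for every `N` there are points `a_0 < ... < a_N` of `A` and
`d > 0` with all gaps `a_{i+1} - a_i` between `d / 2` and `2 d`. Then `Lip_0(ℝ × A)` is isomorphic
to `Lip_0(ℝ²)`. -/
theorem result (A : Set ℝ) (p : strip A)
    (h : ∀ N : ℕ, ∃ (a : Fin (N + 1) → ℝ) (d : ℝ), 0 < d ∧ (∀ i, a i ∈ A) ∧
      ∀ i : Fin N, d / 2 ≤ a i.succ - a i.castSucc ∧ a i.succ - a i.castSucc ≤ 2 * d) :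
    LipIso (strip A) (EuclideanSpace ℝ (Fin 2)) p 0 :=
  second A p h

end Pool.Agent.Results.MP_b365ef_an.LongProgressions
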