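import Pool.Agent.H50.LP.Fin1
import Pool.Agent.H50.LP.NotIso
import Pool.Agent.H50.LP.Unc
import Pool.Agent.H50.LP.Lip0

/-!
MP_b365ef_an. For which `A ⊆ ℝ` is `Lip_0(ℝ × A)` isomorphic to `Lip_0(ℝ)`? Exactly if `A` does not
contain binary trees of every depth; in particular not if `A` is uncountable.
-/

set_option autoImplicit false

namespace Pool.Agent.Results.MP_b365ef_an.ProductCriterion

/-- The real vector space of the Lipschitz functions on `M` which vanish at `p`. -/
def Lip0 (M : Type) [MetricSpace M] (p : M) : Submodule ℝ (M → ℝ) where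
  carrier := {f | f p = 0 ∧ ∃ K : NNReal, LipschitzWith K f}
  add_mem' := by
    rintro f g ⟨h0, K, h⟩ ⟨h0', L, h'⟩
    exact ⟨by simp [h0, h0'], K + L, h.add h'⟩
  zero_mem' := ⟨rfl, 0, LipschitzWith.const 0⟩
  smul_mem' := (H50LP.Lip0 M p).smul_mem'

/-- `Lip0 M p` and `Lip0 N q` are isomorphic as Banach spaces: there is a linear bijection which
is bounded in both directions for the norm given by the best Lipschitz constant. -/
def LipIso (M N : Type) [MetricSpace M] [MetricSpace N] (p : M) (q : N) : Prop :=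
  ∃ (T : Lip0 M p ≃ₗ[ℝ] Lip0 N q) (C : NNReal),
    (∀ (f : Lip0 M p) (K : NNReal), LipschitzWith K f.1 → LipschitzWith (C * K) (T f).1) ∧
    ∀ (g : Lip0 N q) (K : NNReal), LipschitzWith K g.1 → LipschitzWith (C * K) (T.symm g).1

/-- The product `ℝ × A` as a subset of the Euclidean plane. -/
def strip (A : Set ℝ) : Set (EuclideanSpace ℝ (Fin 2)) := {z | z 1 ∈ A}

/-- `Fat K A`: the set `A` contains the end points of a separated binary tree of depth `K`.
`Fat 0 A` means that `A` is nonempty; `Fat (K + 1) A` means that there are `r > 0` and subsets `B`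
and `C` of `A` which satisfy `Fat K`, have diameter at most `r` and have distance at least `2 r`. -/
def Fat : ℕ → Set ℝ → Prop
  | 0, A => A.Nonempty
  | K + 1, A => ∃ r > 0, ∃ B ⊆ A, ∃ C ⊆ A, Fat K B ∧ Fat K C ∧
      (∀ b ∈ B, ∀ b' ∈ B, |b - b'| ≤ r) ∧ (∀ c ∈ C, ∀ c' ∈ C, |c - c'| ≤ r) ∧
      ∀ b ∈ B, ∀ c ∈ C, 2 * r ≤ |b - c|

theorem fat_iff (K : ℕ) : ∀ A : Set ℝ, Fat K A ↔ H50LP.Fat 2 K A := by
  induction K with
  | zero => intro A; exact Iff.rfl
  | succ K ih =>
    intro A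
    simp only [Fat, H50LP.Fat, ih]

theorem criterion (A : Set ℝ) (p : H50LP.strip A) :
    H50LP.LipIso (H50LP.strip A) ℝ p 0 ↔ ∃ K, ¬ H50LP.Fat 2 K A := by
  have a0 : A := ⟨p.1 1, p.2⟩
  constructor
  · intro h
    by_contra hA
    push Not at hA
    have h2 : H50LP.Iso (H50LP.LX A a0) H50LP.Ell :=
      (H50LP.iso_strip A p a0).symm.trans (((H50LP.lipIso_iff _ _ _ _).1 h).trans
        (H50LP.iso_line.trans H50LP.iso_L1_ell))
    obtain ⟨C, -, hC⟩ := h2.cpl
    exact H50LP.not_cpl A a0 hA C hC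
  · rintro ⟨K, hK⟩
    exact (H50LP.lipIso_iff _ _ _ _).2 ((H50LP.iso_strip A p a0).trans
      ((H50LP.iso_LX_ell A a0 K hK).trans (H50LP.iso_line.trans H50LP.iso_L1_ell).symm))

/-- For every set `A` of reals: `Lip_0(ℝ × A)` is isomorphic to `Lip_0(ℝ)` if and only if
`Fat K A` fails for some `K`. In particular it is not if `A` is uncountable, or if all iterated
derived sets of `A` are nonempty. -/
theorem result (A : Set ℝ) (p : strip A) :
    (LipIso (strip A) ℝ p 0 ↔ ∃ K, ¬ Fat K A) ∧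
    (¬ A.Countable → ¬ LipIso (strip A) ℝ p 0) ∧
    ((∀ k : ℕ, (derivedSet^[k] A).Nonempty) → ¬ LipIso (strip A) ℝ p 0) := by
  have h1 : LipIso (strip A) ℝ p 0 ↔ ∃ K, ¬ Fat K A := by
    simp only [fat_iff]
    exact criterion A p
  refine ⟨h1, fun hA h => ?_, fun hA h => ?_⟩
  · obtain ⟨K, hK⟩ := h1.1 h
    exact hK ((fat_iff K A).2 (H50LP.fat_of_uncountable K A hA))
  · obtain ⟨K, hK⟩ := h1.1 h
    exact hK ((fat_iff K A).2 (H50LP.fat_of_derived A hA K))

end Pool.Agent.Results.MP_b365ef_an.ProductCriterion
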