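import Pool.Agent.H50.RC.Main

/-!
MP_b365ef_an, Q1 (negated form). For an explicit compact uncountable set `A` of reals and the closed
subset `M = ℝ × A` of the Euclidean plane the Banach space `Lip_0(M)` is isomorphic neither to
`Lip_0(ℝ)` nor to `Lip_0(ℝ²)`.

The spaces are Mathlib normed spaces: `Lip0 M p` carries the norm of the problem (the supremum of the
difference quotients) and is complete; isomorphisms are continuous linear bijections.
-/

set_option autoImplicit false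

namespace Pool.Agent.Results.MP_b365ef_an.StripCounterexample

/-! ## The Banach space `Lip_0(M)` -/

/-- The real vector space of all Lipschitz functions `M → ℝ` which vanish at the base point `p`. -/
def lipSub (M : Type) [MetricSpace M] (p : M) : Submodule ℝ (M → ℝ) where
  carrier := {f | f p = 0 ∧ ∃ K : NNReal, LipschitzWith K f}
  add_mem' := by
    rintro f g ⟨h0, K, h⟩ ⟨h0', L, h'⟩
    exact ⟨by simp [h0, h0'], K + L, h.add h'⟩
  zero_mem' := ⟨rfl, 0, LipschitzWith.const 0⟩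
  smul_mem' := by
    rintro c f ⟨h0, K, h⟩
    refine ⟨by simp [h0], ‖c‖₊ * K, LipschitzWith.of_dist_le_mul fun x y => ?_⟩
    have h1 : dist ((c • f) x) ((c • f) y) = |c| * dist (f x) (f y) := by
      rw [Real.dist_eq, Real.dist_eq, ← abs_mul]
      congr 1
      simp only [Pi.smul_apply, smul_eq_mul]
      ring
    have h2 : ((‖c‖₊ * K : NNReal) : ℝ) = |c| * K := by simp
    rw [h1, h2, mul_assoc]
    exact mul_le_mul_of_nonneg_left (h.dist_le_mul x y) (abs_nonneg c)

/-- `Lip_0(M)` with the base point `p`: the Lipschitz functions `M → ℝ` vanishing at `p`. -/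
def Lip0 (M : Type) [MetricSpace M] (p : M) : Type := lipSub M p

section
variable {M : Type} [MetricSpace M] {p : M}

instance : AddCommGroup (Lip0 M p) := (lipSub M p).addCommGroup

instance : Module ℝ (Lip0 M p) := (lipSub M p).module

/-- The norm of `Lip_0(M)`: the supremum of `|f x - f y| / dist x y` over all `x ≠ y` in `M`. -/
noncomputable instance : Norm (Lip0 M p) :=
  ⟨fun f => sSup {r : ℝ | ∃ x y : M, x ≠ y ∧ r = |f.1 x - f.1 y| / dist x y}⟩

theorem norm_def (f : Lip0 M p) :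
    ‖f‖ = sSup {r : ℝ | ∃ x y : M, x ≠ y ∧ r = |f.1 x - f.1 y| / dist x y} := rfl

theorem exists_bound (f : Lip0 M p) :
    ∃ K : ℝ, 0 ≤ K ∧ ∀ x y, |f.1 x - f.1 y| ≤ K * dist x y := by
  obtain ⟨K, hK⟩ := f.2.2
  exact ⟨K, K.2, fun x y => by simpa [Real.dist_eq] using hK.dist_le_mul x y⟩

theorem norm_le {f : Lip0 M p} {K : ℝ} (hK : 0 ≤ K) (h : ∀ x y, |f.1 x - f.1 y| ≤ K * dist x y) :
    ‖f‖ ≤ K := by
  refine Real.sSup_le ?_ hK
  rintro r ⟨x, y, hxy, rfl⟩
  rw [div_le_iff₀ (dist_pos.2 hxy)]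
  exact h x y

theorem nonneg (f : Lip0 M p) : 0 ≤ ‖f‖ := by
  refine Real.sSup_nonneg ?_
  rintro r ⟨x, y, hxy, rfl⟩
  positivity

theorem abs_sub_le (f : Lip0 M p) (x y : M) : |f.1 x - f.1 y| ≤ ‖f‖ * dist x y := by
  by_cases hxy : x = y
  · subst hxy
    simp
  · obtain ⟨K, hK, h⟩ := exists_bound f
    rw [← div_le_iff₀ (dist_pos.2 hxy)]
    refine le_csSup ⟨K, ?_⟩ ⟨x, y, hxy, rfl⟩
    rintro r ⟨x', y', hxy', rfl⟩
    rw [div_le_iff₀ (dist_pos.2 hxy')]
    exact h x' y'

theorem coe_add (f g : Lip0 M p) (x : M) : (f + g).1 x = f.1 x + g.1 x := rfl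

theorem coe_smul (c : ℝ) (f : Lip0 M p) (x : M) : (c • f).1 x = c * f.1 x := rfl

theorem coe_zero (x : M) : (0 : Lip0 M p).1 x = 0 := rfl

theorem coe_sub (f g : Lip0 M p) (x : M) : (f - g).1 x = f.1 x - g.1 x := rfl

theorem smul_le (c : ℝ) (f : Lip0 M p) : ‖c • f‖ ≤ |c| * ‖f‖ := by
  refine norm_le (mul_nonneg (abs_nonneg c) (nonneg f)) fun x y => ?_
  rw [coe_smul, coe_smul, ← mul_sub, abs_mul, mul_assoc]
  exact mul_le_mul_of_nonneg_left (abs_sub_le f x y) (abs_nonneg c)

theorem core : NormedSpace.Core ℝ (Lip0 M p) where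
  norm_nonneg := nonneg
  norm_smul c f := by
    rw [Real.norm_eq_abs]
    refine le_antisymm (smul_le c f) ?_
    by_cases hc : c = 0
    · subst hc
      simpa using nonneg ((0 : ℝ) • f)
    · have h1 := smul_le c⁻¹ (c • f)
      rw [inv_smul_smul₀ hc, abs_inv] at h1
      have h2 : 0 < |c| := abs_pos.2 hc
      calc |c| * ‖f‖ ≤ |c| * (|c|⁻¹ * ‖c • f‖) := mul_le_mul_of_nonneg_left h1 h2.le
        _ = ‖c • f‖ := by rw [← mul_assoc, mul_inv_cancel₀ h2.ne', one_mul]
  norm_triangle f g := by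
    refine norm_le (add_nonneg (nonneg f) (nonneg g)) fun x y => ?_
    rw [coe_add, coe_add, add_mul]
    have e : f.1 x + g.1 x - (f.1 y + g.1 y) = (f.1 x - f.1 y) + (g.1 x - g.1 y) := by ring
    rw [e]
    exact (abs_add_le _ _).trans (add_le_add (abs_sub_le f x y) (abs_sub_le g x y))
  norm_eq_zero_iff f := by
    constructor
    · intro h
      apply Subtype.ext
      funext x
      have h1 := abs_sub_le f x p
      rw [h, zero_mul, f.2.1, sub_zero] at h1
      exact abs_eq_zero.1 (le_antisymm h1 (abs_nonneg _))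
    · rintro rfl
      refine le_antisymm (norm_le le_rfl fun x y => ?_) (nonneg _)
      simp [coe_zero]

noncomputable instance : NormedAddCommGroup (Lip0 M p) := NormedAddCommGroup.ofCore core

noncomputable instance : NormedSpace ℝ (Lip0 M p) := NormedSpace.ofCore core

/-- The norm is the least Lipschitz constant. -/
theorem isLeast_norm (f : Lip0 M p) :
    IsLeast {K : ℝ | 0 ≤ K ∧ ∀ x y, |f.1 x - f.1 y| ≤ K * dist x y} ‖f‖ :=
  ⟨⟨nonneg f, abs_sub_le f⟩, fun _ h => norm_le h.1 h.2⟩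

/-- `Lip_0(M)` is a Banach space. -/
instance : CompleteSpace (Lip0 M p) := by
  refine Metric.complete_of_cauchySeq_tendsto fun u hu => ?_
  have h1 : ∀ n m x y, |((u n).1 x - (u m).1 x) - ((u n).1 y - (u m).1 y)| ≤
      dist (u n) (u m) * dist x y := by
    intro n m x y
    rw [dist_eq_norm]
    have := abs_sub_le (u n - u m) x y
    rwa [coe_sub, coe_sub] at this
  have h2 : ∀ x, CauchySeq fun n => (u n).1 x := by
    intro x
    rw [Metric.cauchySeq_iff'] at hu ⊢
    intro ε hε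
    have hd : 0 < dist x p + 1 := by positivity
    obtain ⟨N, hN⟩ := hu (ε / (dist x p + 1)) (by positivity)
    refine ⟨N, fun n hn => ?_⟩
    have h3 := h1 n N x p
    rw [(u n).2.1, (u N).2.1, sub_zero, sub_zero] at h3
    rw [Real.dist_eq]
    refine lt_of_le_of_lt h3 ?_
    have h4 := hN n hn
    rw [lt_div_iff₀ hd] at h4
    have h5 : dist (u n) (u N) * dist x p ≤ dist (u n) (u N) * (dist x p + 1) :=
      mul_le_mul_of_nonneg_left (by linarith) dist_nonneg
    linarith
  choose F hF using fun x => cauchySeq_tendsto_of_complete (h2 x)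
  have h3 : ∀ ε > 0, ∃ N, ∀ n ≥ N, ∀ x y, |((u n).1 x - F x) - ((u n).1 y - F y)| ≤ ε * dist x y := by
    intro ε hε
    obtain ⟨N, hN⟩ := Metric.cauchySeq_iff.1 hu ε hε
    refine ⟨N, fun n hn x y => ?_⟩
    have h4 : Filter.Tendsto (fun m => |((u n).1 x - (u m).1 x) - ((u n).1 y - (u m).1 y)|)
        Filter.atTop (nhds |((u n).1 x - F x) - ((u n).1 y - F y)|) :=
      ((tendsto_const_nhds.sub (hF x)).sub (tendsto_const_nhds.sub (hF y))).abs
    refine le_of_tendsto h4 (Filter.eventually_atTop.2 ⟨N, fun m hm => ?_⟩)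
    exact (h1 n m x y).trans (mul_le_mul_of_nonneg_right (hN n hn m hm).le dist_nonneg)
  have hFp : F p = 0 := by
    refine tendsto_nhds_unique (hF p) ?_
    have : (fun n => (u n).1 p) = fun _ => (0 : ℝ) := funext fun n => (u n).2.1
    rw [this]
    exact tendsto_const_nhds
  have hFlip : ∃ K : NNReal, LipschitzWith K F := by
    obtain ⟨N, hN⟩ := h3 1 one_pos
    refine ⟨⟨‖u N‖ + 1, add_nonneg (nonneg _) zero_le_one⟩, LipschitzWith.of_dist_le_mul fun x y => ?_⟩
    rw [Real.dist_eq]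
    have h4 := hN N le_rfl x y
    have h5 := abs_sub_le (u N) x y
    have e : F x - F y = ((u N).1 x - (u N).1 y) - (((u N).1 x - F x) - ((u N).1 y - F y)) := by ring
    rw [e]
    refine (abs_sub _ _).trans ?_
    show _ ≤ (‖u N‖ + 1) * dist x y
    linarith
  have hG : ∃ G : Lip0 M p, ∀ x, G.1 x = F x := ⟨⟨F, hFp, hFlip⟩, fun _ => rfl⟩
  obtain ⟨G, hG⟩ := hG
  refine ⟨G, Metric.tendsto_atTop.2 fun ε hε => ?_⟩
  obtain ⟨N, hN⟩ := h3 (ε / 2) (by positivity)
  refine ⟨N, fun n hn => ?_⟩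
  rw [dist_eq_norm]
  refine lt_of_le_of_lt (norm_le (by positivity) fun x y => ?_) (half_lt_self hε)
  rw [coe_sub, coe_sub, hG, hG]
  exact hN n hn x y

end

/-- `Lip_0(N) ~ Lip_0(R)` with the base points `p` and `q`: there is a bounded linear bijection
`Lip_0(N) → Lip_0(R)`. -/
def Isomorphic (N R : Type) [MetricSpace N] [MetricSpace R] (p : N) (q : R) : Prop :=
  ∃ T : Lip0 N p →L[ℝ] Lip0 R q, Function.Bijective T

/-- `Lip_0(N)` is isomorphic to a complemented subspace of `Lip_0(R)`: there are bounded linear maps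
`S : Lip_0(N) → Lip_0(R)` and `T : Lip_0(R) → Lip_0(N)` with `T ∘ S = id`. -/
def Complemented (N R : Type) [MetricSpace N] [MetricSpace R] (p : N) (q : R) : Prop :=
  ∃ (S : Lip0 N p →L[ℝ] Lip0 R q) (T : Lip0 R q →L[ℝ] Lip0 N p), ∀ f, T (S f) = f

/-- By the open mapping theorem isomorphic spaces are complemented in each other. -/
theorem Isomorphic.complemented {N R : Type} [MetricSpace N] [MetricSpace R] {p : N} {q : R}
    (h : Isomorphic N R p q) : Complemented N R p q ∧ Complemented R N q p := by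
  obtain ⟨T, hT⟩ := h
  let e : Lip0 N p ≃L[ℝ] Lip0 R q := ContinuousLinearEquiv.ofBijective T
    (LinearMap.ker_eq_bot.2 hT.1) (LinearMap.range_eq_top.2 hT.2)
  exact ⟨⟨e, e.symm, fun f => e.symm_apply_apply f⟩, ⟨e.symm, e, fun g => e.apply_symm_apply g⟩⟩

/-! ## The set -/

/-- The Euclidean plane. -/
abbrev Plane : Type := EuclideanSpace ℝ (Fin 2)

/-- The Cantor set `A` of all sums `∑ e_n 2^(-n(n+1)/2)` over `n ≥ 1` with digits `e_n` in `{0, 1}`
(the index `n` of the sum is `i + 1`). -/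
def A : Set ℝ :=
  {t | ∃ e : ℕ → ℝ, (∀ i, e i = 0 ∨ e i = 1) ∧
    HasSum (fun i : ℕ => e i * (2 : ℝ)⁻¹ ^ ((i + 1) * (i + 2) / 2)) t}

/-- The closed set `M = ℝ × A` in the Euclidean plane. -/
def M : Set Plane := {z | z 1 ∈ A}

theorem A_eq : A = H50RC.cA := by
  classical
  ext t
  constructor
  · rintro ⟨e, he, ht⟩
    refine ⟨fun i => decide (e i = 1), ?_⟩
    rw [← ht.tsum_eq]
    refine tsum_congr fun i => ?_
    rcases he i with h | h
    · simp [h]
    · simp [h, H50RC.aa, add_assoc]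
  · rintro ⟨e, rfl⟩
    refine ⟨fun i => if e i then 1 else 0, fun i => by cases e i <;> simp, ?_⟩
    have h1 := (H50RC.cpt_summable e).hasSum
    have h2 : (fun i => if e i then H50RC.aa (i + 1) else 0) =
        fun i : ℕ => (if e i then (1 : ℝ) else 0) * (2 : ℝ)⁻¹ ^ ((i + 1) * (i + 2) / 2) := by
      funext i
      cases e i <;> simp [H50RC.aa, add_assoc]
    rw [h2] at h1 ⊢
    exact h1

theorem M_eq : M = H50LP.strip H50RC.cA := by
  rw [← A_eq]
  rfl

theorem A_compact : IsCompact A := by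
  have h1 : A = Set.range H50RC.cpt := by
    rw [A_eq]
    ext t
    exact ⟨fun ⟨e, he⟩ => ⟨e, he.symm⟩, fun ⟨e, he⟩ => ⟨e, he.symm⟩⟩
  rw [h1]
  refine isCompact_range ?_
  unfold H50RC.cpt
  refine continuous_tsum (u := fun i => H50RC.aa (i + 1)) (fun i => ?_) H50RC.aa_summable fun i e => ?_
  · exact (continuous_of_discreteTopology (f := fun b : Bool => if b then H50RC.aa (i + 1) else 0)).comp
      (continuous_apply i)
  · split_ifs
    · rw [Real.norm_eq_abs, abs_of_pos (H50RC.aa_pos _)]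
    · simpa using (H50RC.aa_pos _).le

theorem A_uncountable : ¬ A.Countable := by
  rw [A_eq]
  exact H50RC.cA_unc

theorem M_closed : IsClosed M := by
  refine A_compact.isClosed.preimage ?_
  fun_prop

theorem M_infinite : M.Infinite := by
  have h0 : (0 : ℝ) ∈ A := by
    rw [A_eq]
    exact H50RC.cA0.2
  refine Set.infinite_of_injective_forall_mem (f := fun n : ℕ => WithLp.toLp 2 ![(n : ℝ), 0]) ?_ ?_
  · intro m n h
    have := congrFun (congrArg WithLp.ofLp h) 0
    simpa using this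
  · intro n
    exact h0

/-! ## The two factorisation statements -/

/-- The same space as in the helper files, with the predicate `bd K f` (`f` is `K`-Lipschitz). -/
def toL (N : Type) [MetricSpace N] (q : N) : Lip0 N q ≃ₗ[ℝ] H50LP.Lip0 N q where
  toFun f := ⟨f.1, f.2⟩
  map_add' _ _ := rfl
  map_smul' _ _ := rfl
  invFun f := ⟨f.1, f.2⟩
  left_inv _ := rfl
  right_inv _ := rfl

section
variable {N R : Type} [MetricSpace N] [MetricSpace R] {p : N} {q : R}

theorem bdd_of (S : Lip0 N p →L[ℝ] Lip0 R q) {C : ℝ} (hC : ‖S‖ ≤ C) :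
    H50LP.Bdd C (((toL R q : Lip0 R q →ₗ[ℝ] H50LP.Lip0 R q).comp (S : Lip0 N p →ₗ[ℝ] Lip0 R q)).comp
      ((toL N p).symm : H50LP.Lip0 N p →ₗ[ℝ] Lip0 N p)) := by
  intro K f hf
  have hC0 : 0 ≤ C := (norm_nonneg S).trans hC
  have h1 : ‖(toL N p).symm f‖ ≤ K := norm_le hf.1 hf.2
  have h2 : ‖S ((toL N p).symm f)‖ ≤ C * K :=
    (S.le_opNorm _).trans (mul_le_mul hC h1 (norm_nonneg _) hC0)
  refine ⟨mul_nonneg hC0 hf.1, fun x y => ?_⟩
  exact (abs_sub_le (S ((toL N p).symm f)) x y).trans (mul_le_mul_of_nonneg_right h2 dist_nonneg)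

theorem cpl_of (S : Lip0 N p →L[ℝ] Lip0 R q) (T : Lip0 R q →L[ℝ] Lip0 N p)
    (h : ∀ f, T (S f) = f) :
    H50LP.Cpl (max ‖S‖ ‖T‖) (H50LP.Lip0 N p) (H50LP.Lip0 R q) := by
  refine ⟨_, _, fun f => ?_, bdd_of S (le_max_left _ _), bdd_of T (le_max_right _ _)⟩
  simp [h]

/-- change of the base point -/
theorem cpl_base (p p' : N) : H50LP.Cpl 1 (H50LP.Lip0 N p) (H50LP.Lip0 N p') := by
  have hs : ∀ (r s : N) (f : N → ℝ), (∃ K : NNReal, LipschitzWith K f) →
      ∃ K : NNReal, LipschitzWith K fun x => f x - f s := by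
    rintro r s f ⟨K, hK⟩
    exact ⟨K, LipschitzWith.of_dist_le_mul fun x y => by
      simpa [Real.dist_eq] using hK.dist_le_mul x y⟩
  let J : ∀ r s : N, H50LP.Lip0 N r →ₗ[ℝ] H50LP.Lip0 N s := fun r s =>
    { toFun := fun f => ⟨fun x => f.1 x - f.1 s, sub_self _, hs r s f.1 f.2.2⟩
      map_add' := fun f g => by
        apply Subtype.ext
        funext x
        simp only [Submodule.coe_add, Pi.add_apply]
        ring
      map_smul' := fun c f => by
        apply Subtype.ext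
        funext x
        simp only [Submodule.coe_smul, Pi.smul_apply, smul_eq_mul, RingHom.id_apply]
        ring }
  have hJ : ∀ r s : N, H50LP.Bdd 1 (J r s) := by
    intro r s K f hf
    refine ⟨by simpa using hf.1, fun x y => ?_⟩
    show |(f.1 x - f.1 s) - (f.1 y - f.1 s)| ≤ 1 * K * dist x y
    rw [sub_sub_sub_cancel_right, one_mul]
    exact hf.2 x y
  refine ⟨J p p', J p' p, fun f => ?_, hJ _ _, hJ _ _⟩
  apply Subtype.ext
  funext x
  show (f.1 x - f.1 p') - (f.1 p - f.1 p') = f.1 x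
  rw [f.2.1]
  ring

end

open H50LP H50RC

/-- `Lip_0` of the plane is not complemented in `Lip_0(ℝ × A)`. -/
theorem not_cpl_plane (C : ℝ) : ¬ Cpl C (LX Set.univ o1) (LX cA cA0) := by
  rintro ⟨U, T, hTU, hU, hT⟩
  obtain ⟨CF, hCF, hF⟩ := redMain
  set C' : ℝ := max C 0 with hC'
  have hC0 : 0 ≤ C' := le_max_right _ _
  obtain ⟨κ, hκ, hκ'⟩ : ∃ κ : ℝ, 0 < κ ∧ (6 * C') * (C' * 2) * CF * κ ≤ 1 / 8 := by
    refine ⟨1 / (8 * ((6 * C') * (C' * 2) * CF + 1)), by positivity, ?_⟩
    rw [mul_one_div, div_le_div_iff₀ (by positivity) (by norm_num)]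
    nlinarith [mul_nonneg (mul_nonneg hC0 hC0) hCF]
  obtain ⟨m, hm, C1, K0, h⟩ := coreMain κ hκ
  obtain ⟨K1, hK1⟩ := exists_nat_gt (8 * ((6 * C') * (C' * 2) * CF * |C1|) + 1)
  obtain ⟨N, hN, hcore, hpair⟩ := h (max K0 K1) (le_max_left _ _)
  set K := max K0 K1 with hK
  obtain ⟨j, π, h1, h2, h3, h4⟩ := embMain N K m hN
  have hb : ∀ F ∈ Xs N K m, ∀ c : ℝ, 0 ≤ c → (∀ g ∈ lev N K, ‖F g‖ ≤ c) →
      lipB ((C' * 2) * c) ((U.comp j) F).1 := by
    intro F hF c hc h5
    have h6 : bd (C * (2 * c)) (U (j F)) := hU (2 * c) (j F) (h2 F hF c hc h5)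
    have h7 : lipB (C * (2 * c)) (U (j F)).1 := h6
    refine h7.mono ?_
    rw [mul_assoc]
    exact mul_le_mul_of_nonneg_right (le_max_left _ _) (by positivity)
  have ha : ∀ (f : LX cA cA0) (c : ℝ), lipB c f.1 → ∀ g ∈ lev N K,
      ‖((π.comp T) f) g‖ ≤ (6 * C') * c := by
    intro f c hf g hg
    have h6 : bd (C * c) (T f) := hT c f hf
    have h7 := h3 (T f) (C * c) h6 g hg
    refine h7.trans ?_
    rw [mul_assoc]
    exact mul_le_mul_of_nonneg_left (mul_le_mul_of_nonneg_right (le_max_left _ _) hf.1) (by norm_num)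
  have h8 := hF N K m (κ * K) C1 (by omega) hm hcore hpair (U.comp j) (π.comp T)
    (6 * C') (C' * 2) (by positivity) (by positivity) (fun f => h1 _) hb ha
  have h9 : (fun y : Y N => (π.comp T) ((U.comp j) y)) = fun y => π (j y) := by
    funext y
    show π (T (U (j y))) = π (j y)
    rw [hTU]
  rw [h9] at h8
  have h10 := (le_abs_self _).trans h8
  have h11 := h4.trans h10
  have h12 : (6 * C') * (C' * 2) * CF * (κ * K + C1) ≤ 1 / 8 * K + (6 * C') * (C' * 2) * CF * |C1| := by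
    have e1 : (6 * C') * (C' * 2) * CF * (κ * K) ≤ 1 / 8 * K := by
      have := mul_le_mul_of_nonneg_right hκ' (Nat.cast_nonneg (α := ℝ) K)
      linarith
    have e2 : (6 * C') * (C' * 2) * CF * C1 ≤ (6 * C') * (C' * 2) * CF * |C1| :=
      mul_le_mul_of_nonneg_left (le_abs_self _) (by positivity)
    linarith
  have h13 : (K1 : ℝ) ≤ K := by
    rw [hK]
    exact_mod_cast le_max_right K0 K1
  linarith

theorem line_aux (p : strip cA) (q : ℝ) (S : Lip0 (strip cA) p →L[ℝ] Lip0 ℝ q)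
    (T : Lip0 ℝ q →L[ℝ] Lip0 (strip cA) p) (h : ∀ f, T (S f) = f) : False := by
  obtain ⟨C1, -, h1⟩ := (iso_strip cA p cA0).symm.cpl
  obtain ⟨C2, -, h2⟩ := (iso_line.trans iso_L1_ell).cpl
  exact not_cpl cA cA0 (fun K => fat_of_uncountable K cA cA_unc) _
    (((h1.trans (cpl_of S T h)).trans (cpl_base q 0)).trans h2)

theorem plane_aux (p : strip cA) (q : EuclideanSpace ℝ (Fin 2))
    (S : Lip0 (EuclideanSpace ℝ (Fin 2)) q →L[ℝ] Lip0 (strip cA) p)
    (T : Lip0 (strip cA) p →L[ℝ] Lip0 (EuclideanSpace ℝ (Fin 2)) q) (h : ∀ f, T (S f) = f) :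
    False := by
  obtain ⟨C1, -, h1⟩ := iso_plane.symm.cpl
  obtain ⟨C2, -, h2⟩ := (iso_strip cA p cA0).cpl
  exact not_cpl_plane _ (((h1.trans (cpl_base 0 q)).trans (cpl_of S T h)).trans h2)

/-- `Lip_0(M)` is not complemented in `Lip_0(ℝ)`. -/
theorem line (p : M) (q : ℝ) : ¬ Complemented M ℝ p q := by
  have key : ∀ B : Set Plane, B = strip cA → ∀ p : B, ¬ Complemented B ℝ p q := by
    rintro B rfl p ⟨S, T, h⟩
    exact line_aux p q S T h
  exact key M M_eq p

/-- `Lip_0(ℝ²)` is not complemented in `Lip_0(M)`. -/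
theorem plane (p : M) (q : Plane) : ¬ Complemented Plane M q p := by
  have key : ∀ B : Set Plane, B = strip cA → ∀ p : B, ¬ Complemented Plane B q p := by
    rintro B rfl p ⟨S, T, h⟩
    exact plane_aux p q S T h
  exact key M M_eq p

/-- **Negative answer to Q1.** `A` is the set of all sums `∑ e_n 2^(-n(n+1)/2)`, `n ≥ 1`, with digits
`e_n` in `{0, 1}`; it is compact and uncountable, and `M = ℝ × A` is an infinite closed subset of the
plane. For all base points there is no bounded linear bijection from `Lip_0(M)` to `Lip_0(ℝ)`, and none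
from `Lip_0(M)` to `Lip_0(ℝ²)`. More strongly, `Lip_0(M)` is not isomorphic to a complemented subspace of
`Lip_0(ℝ)`, and `Lip_0(ℝ²)` is not isomorphic to a complemented subspace of `Lip_0(M)`. The last conjunct
records that `Lip0 N q` is a Banach space, normed by the least Lipschitz constant. -/
theorem result :
    IsCompact A ∧ ¬ A.Countable ∧ IsClosed M ∧ M.Infinite ∧
    (∀ (p : M) (q : ℝ), ¬ Isomorphic M ℝ p q) ∧
    (∀ (p : M) (q : Plane), ¬ Isomorphic M Plane p q) ∧
    (∀ (p : M) (q : ℝ), ¬ Complemented M ℝ p q) ∧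
    (∀ (p : M) (q : Plane), ¬ Complemented Plane M q p) ∧
    ∀ (N : Type) [MetricSpace N] (q : N), CompleteSpace (Lip0 N q) ∧
      ∀ f : Lip0 N q, IsLeast {K : ℝ | 0 ≤ K ∧ ∀ x y : N, |f.1 x - f.1 y| ≤ K * dist x y} ‖f‖ :=
  ⟨A_compact, A_uncountable, M_closed, M_infinite, fun p q h => line p q h.complemented.1,
    fun p q h => plane p q h.complemented.2, line, plane,
    fun _ _ _ => ⟨inferInstance, isLeast_norm⟩⟩

end Pool.Agent.Results.MP_b365ef_an.StripCounterexample
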